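import Pool.Agent.H85.KW.Pos
import Pool.Agent.H85.KW.Neg
import Pool.Agent.H85.KW.Ext

/-!
MP_c19dcb_al.  The weight of the representation kernel `KO(G)` of a locally compact group `G` is at
most `2^ℵ₀` if the space `G / G₀` of the components is compact (in particular if `G` is connected,
which answers Q1), and the same holds for the larger von Neumann kernel. This is sharp: for every
locally compact group `P` with `P / P₀` not compact there are extensions `G` of `P` by tori with
`KO(G)` of arbitrarily large weight.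
-/

namespace Pool.Agent.Results.MP_c19dcb_al.CompactComponentSpace

open Filter Topology

universe u

/-- `KO(G)`: the intersection of the kernels of all continuous homomorphisms from `G` to the
groups `GL_n(ℂ)`, `n ∈ ℕ`. -/
def KO (G : Type u) [Group G] [TopologicalSpace G] : Subgroup G :=
  ⨅ (n : ℕ) (ρ : {ρ : G →* GL (Fin n) ℂ // Continuous ρ}), ρ.1.ker

/-- The von Neumann kernel: the intersection of the kernels of all continuous homomorphisms from
`G` to the unitary groups `U(n)`, `n ∈ ℕ`. -/
def VN (G : Type u) [Group G] [TopologicalSpace G] : Subgroup G :=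
  ⨅ (n : ℕ) (ρ : {ρ : G →* Matrix.unitaryGroup (Fin n) ℂ // Continuous ρ}), ρ.1.ker

/-- The weight of a topological space: the least cardinality of a base of its topology. -/
noncomputable def weight (X : Type u) [TopologicalSpace X] : Cardinal.{u} :=
  sInf {c | ∃ B : Set (Set X), TopologicalSpace.IsTopologicalBasis B ∧ Cardinal.mk B = c}

theorem KO_le_VN (G : Type u) [Group G] [TopologicalSpace G] [IsTopologicalGroup G] :
    KO G ≤ VN G := by
  unfold VN
  refine le_iInf fun n => le_iInf fun ρ => ?_
  intro g hg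
  rw [MonoidHom.mem_ker]
  let σ : G →* Matrix (Fin n) (Fin n) ℂ := (Matrix.unitaryGroup (Fin n) ℂ).subtype.comp ρ.1
  have hσ : Continuous σ := continuous_subtype_val.comp ρ.2
  let τ : G →* GL (Fin n) ℂ := MonoidHom.toHomUnits σ
  have hτ : Continuous τ := by
    rw [Units.continuous_iff]
    refine ⟨hσ, ?_⟩
    have h4 : Continuous fun x : G => σ x⁻¹ := hσ.comp continuous_inv
    exact h4
  have h1 : KO G ≤ τ.ker := iInf_le_of_le n (iInf_le_of_le ⟨τ, hτ⟩ le_rfl)
  have h2 : τ g = 1 := h1 hg
  have h3 := congrArg Units.val h2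
  apply Subtype.ext
  exact h3

theorem VN_le {G : Type u} [Group G] [TopologicalSpace G] [IsTopologicalGroup G]
    (S : Subgroup G) [S.Normal] (hS : IsClosed (S : Set G)) [CompactSpace (G ⧸ S)] :
    VN G ≤ S := by
  intro g hg
  by_contra hgS
  have hne : (QuotientGroup.mk g : G ⧸ S) ≠ 1 := by
    intro h
    exact hgS ((QuotientGroup.eq_one_iff g).1 h)
  have : IsClosed (S : Set G) := hS
  obtain ⟨n, ρ, hρ, h1⟩ := Pool.Agent.R557.KO.pw (G ⧸ S) _ _ hne
  let σ : G →* Matrix.unitaryGroup (Fin n) ℂ := ρ.comp (QuotientGroup.mk' S)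
  have hσ : Continuous σ := hρ.comp QuotientGroup.continuous_mk
  have h2 : VN G ≤ σ.ker := iInf_le_of_le n (iInf_le_of_le ⟨σ, hσ⟩ le_rfl)
  have h3 : σ g = 1 := h2 hg
  apply h1
  rw [map_one]
  exact h3

theorem weight_le {G : Type u} [Group G] [TopologicalSpace G] [IsTopologicalGroup G] [T2Space G]
    [LocallyCompactSpace G] (z : ℕ → G) (K : Subgroup G)
    (hK : K ≤ (Subgroup.closure (Set.range z)).topologicalClosure) :
    weight K ≤ Cardinal.continuum := by
  obtain ⟨w, hw⟩ : ∃ w : ℕ → FreeGroup ℕ, Function.Surjective w := exists_surjective_nat _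
  have hran : Set.range (fun k => FreeGroup.lift z (w k)) =
      (Subgroup.closure (Set.range z) : Set G) := by
    rw [← FreeGroup.range_lift_eq_closure]
    ext x
    simp only [Set.mem_range, SetLike.mem_coe, MonoidHom.mem_range]
    constructor
    · rintro ⟨k, hk⟩
      exact ⟨_, hk⟩
    · rintro ⟨y, hy⟩
      obtain ⟨k, rfl⟩ := hw y
      exact ⟨k, hy⟩
  have h1 : (K : Set G) ⊆ closure (Set.range fun k => FreeGroup.lift z (w k)) := by
    rw [hran]
    exact hK
  exact Pool.Agent.R557.KO.s_WT G (fun k => FreeGroup.lift z (w k)) (K : Set G) h1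

theorem main1 (G : Type u) [Group G] [TopologicalSpace G] [IsTopologicalGroup G] [T2Space G]
    [LocallyCompactSpace G] [CompactSpace (ConnectedComponents G)] :
    (∃ N S : Subgroup G, N.Normal ∧ S.Normal ∧ IsCompact (N : Set G) ∧ IsClosed (S : Set G) ∧
      (∀ n ∈ N, ∀ s ∈ S, n * s = s * n) ∧
      (∃ z : ℕ → G, S = (Subgroup.closure (Set.range z)).topologicalClosure) ∧
      CompactSpace (G ⧸ S) ∧ connectedComponent (1 : G) ⊆ ((N ⊔ S : Subgroup G) : Set G) ∧
      (ConnectedSpace G → N ⊔ S = ⊤) ∧ VN G ≤ S) ∧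
    KO G ≤ VN G ∧ weight (VN G) ≤ Cardinal.continuum ∧ weight (KO G) ≤ Cardinal.continuum := by
  obtain ⟨N, S, h1, h2, h3, h4, h5, ⟨z, h6⟩, h7, -, h9⟩ := Pool.Agent.H85.KW.pos (G := G)
  have hV : VN G ≤ S := VN_le S h4
  refine ⟨⟨N, S, h1, h2, h3, h4, h5, ⟨z, h6⟩, h7, h9, ?_, hV⟩, KO_le_VN G, ?_, ?_⟩
  · intro hc
    rw [eq_top_iff]
    intro g _
    apply h9
    rw [PreconnectedSpace.connectedComponent_eq_univ]
    trivial
  · exact weight_le z _ (h6 ▸ hV)
  · exact weight_le z _ (h6 ▸ (KO_le_VN G).trans hV)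

theorem main3 (P : Type u) [Group P] [TopologicalSpace P] [IsTopologicalGroup P] [T2Space P]
    [LocallyCompactSpace P] (hP : ¬ CompactSpace (ConnectedComponents P)) (κ : Cardinal.{u}) :
    ∃ (G : Type u) (_ : Group G) (_ : TopologicalSpace G) (_ : IsTopologicalGroup G)
      (_ : T2Space G) (_ : LocallyCompactSpace G) (f : G →* P), Continuous f ∧ IsOpenMap f ∧
      Function.Surjective f ∧ IsCompact (f.ker : Set G) ∧ IsConnected (f.ker : Set G) ∧
      f.ker ≤ KO G ∧ κ ≤ weight (KO G) := by
  obtain ⟨U, hU, hinf⟩ := Pool.Agent.H85.KW.exists_open P hP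
  let ι : Type u := Option κ.out
  have hκ : κ ≤ Cardinal.mk ι := by
    rw [← Cardinal.mk_out κ]
    exact Cardinal.mk_le_of_injective (Option.some_injective _)
  have htg : IsTopologicalGroup (Pool.Agent.H85.KW.Wr P U ι) := Pool.Agent.H85.KW.Wr.topGroup hU
  have ht2 : T2Space (Pool.Agent.H85.KW.Wr P U ι) := Pool.Agent.H85.KW.Wr.t2
  have hlc : LocallyCompactSpace (Pool.Agent.H85.KW.Wr P U ι) := Pool.Agent.H85.KW.Wr.locComp
  have hker : (Pool.Agent.H85.KW.Wr.pr : Pool.Agent.H85.KW.Wr P U ι →* P).ker ≤
      KO (Pool.Agent.H85.KW.Wr P U ι) := by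
    intro g hg
    obtain ⟨k, rfl⟩ := (Pool.Agent.H85.KW.Wr.mem_ker g).1 hg
    simp only [KO, Subgroup.mem_iInf, MonoidHom.mem_ker]
    intro n ρ
    exact Pool.Agent.H85.KW.Wr.rep_inl ρ.1 ρ.2 k
  refine ⟨Pool.Agent.H85.KW.Wr P U ι, inferInstance, inferInstance, htg, ht2, hlc,
    Pool.Agent.H85.KW.Wr.pr, Pool.Agent.H85.KW.Wr.cont_pr, Pool.Agent.H85.KW.Wr.open_pr,
    Pool.Agent.H85.KW.Wr.surj_pr, Pool.Agent.H85.KW.Wr.ker_compact,
    Pool.Agent.H85.KW.Wr.ker_connected, hker, ?_⟩
  apply le_csInf
  · exact ⟨_, _, TopologicalSpace.isTopologicalBasis_opens, rfl⟩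
  · rintro _ ⟨B, hB, rfl⟩
    refine hκ.trans ?_
    exact Pool.Agent.H85.KW.Wr.card_le (KO (Pool.Agent.H85.KW.Wr P U ι) : Set _)
      (fun k => hker ((Pool.Agent.H85.KW.Wr.mem_ker _).2 ⟨k, rfl⟩)) B hB

/-- **The weight of the representation kernel.**

(0) The space of components of a connected group is compact.

(1) Let `G` be a locally compact Hausdorff group with a compact space of components (`G / G₀`
compact). Then `G` has a compact normal subgroup `N` and a closed normal subgroup `S` which commute
elementwise, such that `S` is topologically generated by a sequence, `G / S` is compact, `G₀ ⊆ N S`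
(so that `G = N S` if `G` is connected) and the von Neumann kernel `VN(G) ⊇ KO(G)` is contained in
`S`. So `VN(G)` and `KO(G)` have weight at most `2^ℵ₀`. With (0) this answers Q1.

(2) For a locally compact Hausdorff group `P`, the space of components of `P` is compact if and
only if `KO(G)` has weight at most `2^ℵ₀` for all locally compact Hausdorff groups `G` which are
extensions of `P` by a compact group.

(3) If the space of components of `P` is not compact, then for every cardinal `κ` there is a locally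
compact Hausdorff group `G` with a compact connected normal subgroup contained in `KO(G)`, with
quotient `P`, such that the weight of `KO(G)` is at least `κ`. -/
theorem result :
    (∀ (G : Type u) [Group G] [TopologicalSpace G] [ConnectedSpace G],
      CompactSpace (ConnectedComponents G)) ∧
    (∀ (G : Type u) [Group G] [TopologicalSpace G] [IsTopologicalGroup G] [T2Space G]
      [LocallyCompactSpace G] [CompactSpace (ConnectedComponents G)],
      (∃ N S : Subgroup G, N.Normal ∧ S.Normal ∧ IsCompact (N : Set G) ∧ IsClosed (S : Set G) ∧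
        (∀ n ∈ N, ∀ s ∈ S, n * s = s * n) ∧
        (∃ z : ℕ → G, S = (Subgroup.closure (Set.range z)).topologicalClosure) ∧
        CompactSpace (G ⧸ S) ∧ connectedComponent (1 : G) ⊆ ((N ⊔ S : Subgroup G) : Set G) ∧
        (ConnectedSpace G → N ⊔ S = ⊤) ∧ VN G ≤ S) ∧
      KO G ≤ VN G ∧ weight (VN G) ≤ Cardinal.continuum ∧ weight (KO G) ≤ Cardinal.continuum) ∧
    (∀ (P : Type u) [Group P] [TopologicalSpace P] [IsTopologicalGroup P] [T2Space P]
      [LocallyCompactSpace P], CompactSpace (ConnectedComponents P) ↔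
      ∀ (G : Type u) [Group G] [TopologicalSpace G] [IsTopologicalGroup G] [T2Space G]
        [LocallyCompactSpace G] (f : G →* P), Continuous f → IsOpenMap f →
        Function.Surjective f → IsCompact (f.ker : Set G) →
        weight (KO G) ≤ Cardinal.continuum) ∧
    ∀ (P : Type u) [Group P] [TopologicalSpace P] [IsTopologicalGroup P] [T2Space P]
      [LocallyCompactSpace P], ¬ CompactSpace (ConnectedComponents P) → ∀ κ : Cardinal.{u},
      ∃ (G : Type u) (_ : Group G) (_ : TopologicalSpace G) (_ : IsTopologicalGroup G)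
        (_ : T2Space G) (_ : LocallyCompactSpace G) (f : G →* P), Continuous f ∧ IsOpenMap f ∧
        Function.Surjective f ∧ IsCompact (f.ker : Set G) ∧ IsConnected (f.ker : Set G) ∧
        f.ker ≤ KO G ∧ κ ≤ weight (KO G) := by
  refine ⟨?_, fun G => ?_, fun P => ?_, fun P => ?_⟩
  · intro G _ _ _
    have h1 : CompactSpace (ConnectedComponents G) := by
      have h2 : Subsingleton (ConnectedComponents G) := inferInstance
      infer_instance
    exact h1
  · intro _ _ _ _ _ _
    exact main1 G
  · intro _ _ _ _ _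
    constructor
    · intro hP G _ _ _ _ _ f _ hfo hfs hK
      have hG : CompactSpace (ConnectedComponents G) :=
        Pool.Agent.H85.KW.ext_compact P G f hfo hfs hK
      exact (main1 G).2.2.2
    · intro h
      by_contra hP
      obtain ⟨G, i1, i2, i3, i4, i5, f, h1, h2, h3, h4, -, -, h5⟩ :=
        main3 P hP (Order.succ Cardinal.continuum)
      have h6 := h G f h1 h2 h3 h4
      exact absurd (h5.trans h6) (not_le.2 (Order.lt_succ _))
  · intro _ _ _ _ _ hP κ
    exact main3 P hP κ

end Pool.Agent.Results.MP_c19dcb_al.CompactComponentSpace
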